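import Pool.Agent.Helper20.Disp.Basic

/-!
The maximum dispersal of an even number of weak orders, semiorders, interval orders or partial orders.
-/

set_option autoImplicit false

namespace Pool.Agent.Results.MP_49573d_co.EvenVoters

open Pool.Agent.Helper20.Disp

/-- For even `v` and every `n` the maximum dispersal is `v * (n choose 2)`, for each of the four
classes of orders. -/
theorem result (n v : ℕ) (hv : Even v) (R : Rel n → Prop)
    (hR : R = IsWeak ∨ R = IsSemi ∨ R = IsInterval ∨ R = IsPO) :
    IsGreatest (values R v) (v * n.choose 2) := by
  have hG : Good R := by
    rcases hR with rfl | rfl | rfl | rfl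
    · exact good_weak
    · exact good_semi
    · exact good_interval
    · exact good_po
  rw [← F_even hG hv]
  exact F_isGreatest hG.empty v

end Pool.Agent.Results.MP_49573d_co.EvenVoters
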