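import Pool.Agent.Helper20.Disp.Fin

/-!
The maximum dispersal of an odd number of weak orders, semiorders or interval orders.
-/

set_option autoImplicit false

namespace Pool.Agent.Results.MP_49573d_co.ManyVoters

open Pool.Agent.Helper20.Disp

/-- Let `v = 2 m + 1` with `m ≥ 2`, let `n ≥ 2` and let `M` be the maximum dispersal of `v` weak
orders, of `v` semiorders or of `v` interval orders on `n` points. The deficiency
`d = v (n choose 2) - M` satisfies `n ^ (3 / 2) / 62 ≤ d` and `(n choose 2) / v ≤ d`, and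
`d ≤ 30 n ^ (3 / 2)` if `n ≤ m`, and, for all `n`, both
`d ≤ 60 √m / (m - 1) * (n choose 2) + 2 m n k` with `k` the least integer with `n ≤ m ^ k`, and
`d ≤ ((n choose 2) + 2 n k) / 3` with `k` the least integer with `n ≤ 3 ^ k`. -/
theorem result (m n : ℕ) (hm : 2 ≤ m) (hn : 2 ≤ n) (R : Rel n → Prop)
    (hR : R = IsWeak ∨ R = IsSemi ∨ R = IsInterval) :
    ∃ (M : ℕ) (d : ℝ), IsGreatest (values R (2 * m + 1)) M ∧
      d = (2 * m + 1) * n.choose 2 - M ∧
      n * Real.sqrt n / 62 ≤ d ∧ (n.choose 2 : ℝ) / (2 * m + 1) ≤ d ∧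
      (n ≤ m → d ≤ 30 * (n * Real.sqrt n)) ∧
      d ≤ 60 * Real.sqrt m / (m - 1) * n.choose 2 + 2 * m * n * Nat.clog m n ∧
      d ≤ (n.choose 2 + 2 * n * Nat.clog 3 n) / 3 := by
  have hG : Good R := by
    rcases hR with rfl | rfl | rfl
    · exact good_weak
    · exact good_semi
    · exact good_interval
  have hW : ∀ s, IsWeak s → R s := by
    intro s hs
    rcases hR with rfl | rfl | rfl
    · exact hs
    · exact weak_semi hs
    · exact weak_interval hs
  have hI : ∀ s, R s → IsInterval s := by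
    intro s hs
    rcases hR with rfl | rfl | rfl
    · exact weak_interval hs
    · exact hs.1
    · exact hs
  have hv : Odd (2 * m + 1) := ⟨m, rfl⟩
  have hcast : ((2 * m + 1 : ℕ) : ℝ) = 2 * m + 1 := by push_cast; ring
  refine ⟨F R (2 * m + 1), _, F_isGreatest hG.empty _, rfl, ?_, ?_, ?_, ?_, ?_⟩
  · have h := F_deficiency hG hW hv hn
    rw [hcast] at h
    linarith
  · have h := F_le_odd hG hv
    have h0 : 1 ≤ (2 * m + 1) ^ 2 := Nat.one_le_pow _ _ (by omega)
    have h' : ((2 * m + 1 : ℕ) : ℝ) * (F R (2 * m + 1) : ℝ) ≤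
        (((2 * m + 1 : ℕ) : ℝ) ^ 2 - 1) * n.choose 2 := by
      have h1 : (((2 * m + 1) * F R (2 * m + 1) : ℕ) : ℝ) ≤
          ((((2 * m + 1) ^ 2 - 1) * n.choose 2 : ℕ) : ℝ) := by exact_mod_cast h
      rw [Nat.cast_mul, Nat.cast_mul, Nat.cast_sub h0, Nat.cast_pow, Nat.cast_one] at h1
      exact h1
    rw [hcast] at h'
    have hpos : (0 : ℝ) < 2 * m + 1 := by positivity
    rw [div_le_iff₀ hpos]
    nlinarith
  · intro hnm
    have h := F_many hG hI (by omega) hv (by omega)
    rw [hcast] at h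
    exact h
  · have h := F_interval hm hG hI hv le_rfl
    rw [hcast] at h
    exact h
  · have h := F_odd_ge_all hG hv (by omega)
    have h' : ((3 * (2 * m + 1) * n.choose 2 : ℕ) : ℝ) ≤
        ((3 * F R (2 * m + 1) + n.choose 2 + 2 * n * Nat.clog 3 n : ℕ) : ℝ) := by exact_mod_cast h
    push_cast at h'
    linarith

end Pool.Agent.Results.MP_49573d_co.ManyVoters
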