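import Pool.Agent.Helper20.Disp.Fin

/-!
The maximum dispersal of an odd number of partial orders.
-/

set_option autoImplicit false

namespace Pool.Agent.Results.MP_49573d_co.PartialOrders

open Pool.Agent.Helper20.Disp

/-- For odd `v` and every `n` the maximum dispersal `M` of `v` partial orders on `n` points is at
most `(v - 1 / 4) (n choose 2)`. For every `ε > 0` it is at least `(v - 1 / 4 - ε) (n choose 2)` as
soon as `v` and `n` are large, and for all odd `v ≥ 3` and all `n` it is at least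
`(v - 1 / 3) (n choose 2) - 2 n k / 3`, where `k` is the least integer with `n ≤ 3 ^ k`. -/
theorem result (ε : ℝ) (hε : 0 < ε) :
    ∃ v₀ n₀ : ℕ, ∀ n v : ℕ, Odd v → ∃ M : ℕ, IsGreatest (values (IsPO (n := n)) v) M ∧
      (M : ℝ) ≤ (v - 1 / 4) * n.choose 2 ∧
      (n₀ ≤ n → v₀ ≤ v → ((v : ℝ) - 1 / 4 - ε) * n.choose 2 ≤ M) ∧
      (3 ≤ v → ((v : ℝ) - 1 / 3) * n.choose 2 - 2 * n * Nat.clog 3 n / 3 ≤ M) := by
  obtain ⟨v₀, n₀, h⟩ := partial_asymp hε
  refine ⟨v₀, n₀, fun n v hv => ⟨F (IsPO (n := n)) v, F_isGreatest good_po.empty v, ?_,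
    fun hn hv => h n hn v hv, fun h3 => ?_⟩⟩
  · have h1 : ((4 * F (IsPO (n := n)) v + n.choose 2 : ℕ) : ℝ) ≤ ((4 * v * n.choose 2 : ℕ) : ℝ) := by
      exact_mod_cast F_partial_le (n := n) hv
    push_cast at h1
    linarith
  · have h1 := F_odd_ge_all (good_po (n := n)) hv h3
    have h2 : ((3 * v * n.choose 2 : ℕ) : ℝ) ≤
        ((3 * F (IsPO (n := n)) v + n.choose 2 + 2 * n * Nat.clog 3 n : ℕ) : ℝ) := by
      exact_mod_cast h1
    push_cast at h2
    linarith

end Pool.Agent.Results.MP_49573d_co.PartialOrders
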