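import Pool.Agent.Helper20.Disp.Main

/-!
The maximum dispersal of three weak orders, semiorders, interval orders or partial orders.
-/

set_option autoImplicit false

namespace Pool.Agent.Results.MP_49573d_co.ThreeVoters

open Pool.Agent.Helper20.Disp

/-- For `v = 3` the maximum dispersal `M` satisfies
`8 (n choose 2) - 2 n k ≤ 3 M ≤ 8 (n choose 2)`, where `k` is the least integer with `n ≤ 3 ^ k`,
and `3 M = 8 (n choose 2)` if `n` is a power of three, for each of the four classes of orders. -/
theorem result (n : ℕ) (R : Rel n → Prop)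
    (hR : R = IsWeak ∨ R = IsSemi ∨ R = IsInterval ∨ R = IsPO) :
    ∃ M : ℕ, IsGreatest (values R 3) M ∧ 3 * M ≤ 8 * n.choose 2 ∧
      8 * n.choose 2 ≤ 3 * M + 2 * n * Nat.clog 3 n ∧
      ((∃ k : ℕ, n = 3 ^ k) → 3 * M = 8 * n.choose 2) := by
  have hG : Good R := by
    rcases hR with rfl | rfl | rfl | rfl
    · exact good_weak
    · exact good_semi
    · exact good_interval
    · exact good_po
  refine ⟨F R 3, F_isGreatest hG.empty 3, ?_, F_three_ge hG, ?_⟩
  · have h := F_le_odd hG (v := 3) (by decide)
    simpa using h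
  · rintro ⟨k, rfl⟩
    exact F_three_pow hG

end Pool.Agent.Results.MP_49573d_co.ThreeVoters
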